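import Pool.Agent.P8H14.GQ.Stm

/-! Project GQ of helper14, package SUB (helper4): the additive energy of subfamilies. -/

set_option autoImplicit false

namespace Pool.Agent.P8H4.GQ

open Finset
open Pool.Agent.H373R2.T7 (energy)
open Pool.Agent.P8H14.GQ

theorem sub : S_SUB := by
  intro p x s T hT
  classical
  obtain ⟨f, hf⟩ : ∃ f : ℕ → ℕ, f = fun a =>
      if h : a - 1 < T.card then T.orderEmbOfFin rfl ⟨a - 1, h⟩ else 0 := ⟨_, rfl⟩
  have hfe : ∀ (a : ℕ) (h : a - 1 < T.card), f a = T.orderEmbOfFin rfl ⟨a - 1, h⟩ := by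
    intro a h
    rw [hf]
    exact dif_pos h
  have hmem : ∀ a ∈ Icc 1 T.card, f a ∈ T := by
    intro a ha
    rw [mem_Icc] at ha
    rw [hfe a (by omega)]
    exact T.orderEmbOfFin_mem rfl _
  have hinj : ∀ a ∈ Icc 1 T.card, ∀ b ∈ Icc 1 T.card, f a = f b → a = b := by
    intro a ha b hb h
    rw [mem_Icc] at ha hb
    rw [hfe a (by omega), hfe b (by omega)] at h
    have h1 := (T.orderEmbOfFin rfl).injective h
    have h2 : a - 1 = b - 1 := congrArg Fin.val h1
    omega
  have himg : T = (Icc 1 T.card).image f := by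
    symm
    refine Finset.eq_of_subset_of_card_le ?_ ?_
    · intro y hy
      obtain ⟨a, ha, rfl⟩ := mem_image.1 hy
      exact hmem a ha
    · rw [card_image_of_injOn (fun a ha b hb h => hinj a ha b hb h), Nat.card_Icc]
      omega
  refine ⟨f, hmem, himg, fun a ha b hb h => hinj a ha b hb h, fun i hi b => ?_⟩
  unfold energy
  have key : ∀ q : (Fin p → ℕ) × (Fin p → ℕ),
      (∑ j, (i * s (f (q.1 j)) + b) = ∑ j, (i * s (f (q.2 j)) + b)) →
      ∑ j, s (f (q.1 j)) = ∑ j, s (f (q.2 j)) := by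
    intro q h
    rw [sum_add_distrib, sum_add_distrib, ← mul_sum, ← mul_sum] at h
    exact mul_left_cancel₀ hi (add_right_cancel h)
  refine Finset.card_le_card_of_injOn (fun q => (fun j => f (q.1 j), fun j => f (q.2 j))) ?_ ?_
  · intro q hq
    rw [mem_coe, mem_filter, mem_product, Fintype.mem_piFinset, Fintype.mem_piFinset] at hq
    rw [mem_coe, mem_filter, mem_product, Fintype.mem_piFinset, Fintype.mem_piFinset]
    exact ⟨⟨fun j => hT (hmem _ (hq.1.1 j)), fun j => hT (hmem _ (hq.1.2 j))⟩, key q hq.2⟩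
  · intro q hq q' hq' h
    rw [mem_coe, mem_filter, mem_product, Fintype.mem_piFinset, Fintype.mem_piFinset] at hq hq'
    have h1 := congrArg Prod.fst h
    have h2 := congrArg Prod.snd h
    refine Prod.ext ?_ ?_
    · funext j
      exact hinj _ (hq.1.1 j) _ (hq'.1.1 j) (congrFun h1 j)
    · funext j
      exact hinj _ (hq.1.2 j) _ (hq'.1.2 j) (congrFun h2 j)

end Pool.Agent.P8H4.GQ
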