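import Pool.Agent.P8H14.GQ.Stm
import Pool.Agent.P8H13.PK.Pair

/-! Project GQ of helper14, package WSQ (helper4): the mean squares of the weights. -/

set_option autoImplicit false

namespace Pool.Agent.P8H4.GQ

open Finset
open Pool.Agent.P8H13.PK (th mo th_nonneg th_le_of_le mo_sq)
open Pool.Agent.P8H14.PL (Ql)
open Pool.Agent.P8H14.GQ

/-- reflection of a sum over `1, …, N` -/
theorem sum_refl (g : ℕ → ℝ) (N : ℕ) : ∑ n ∈ Icc 1 N, g (N - n) = ∑ t ∈ range N, g t := by
  refine Finset.sum_bij' (fun n _ => N - n) (fun t _ => N - t) ?_ ?_ ?_ ?_ ?_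
  · intro n hn
    rw [mem_Icc] at hn
    rw [mem_range]
    omega
  · intro t ht
    rw [mem_range] at ht
    rw [mem_Icc]
    omega
  · intro n hn
    rw [mem_Icc] at hn
    omega
  · intro t ht
    rw [mem_range] at ht
    omega
  · intro n hn
    rfl

theorem wsq : S_WSQ := by
  obtain ⟨C, hC, hmo⟩ := mo_sq
  refine ⟨max 1 C, fun l N hl hlN => ?_⟩
  have hl1 : 1 ≤ l := (le_max_left _ _).trans hl
  have hlC : C ≤ l := (le_max_right _ _).trans hl
  have hlog : 0 < Real.log N := by linarith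
  have hNpos : 0 < N := by
    rcases Nat.eq_zero_or_pos N with h | h
    · subst h
      simp at hlog
    · exact h
  have hN0 : (0 : ℝ) < N := by exact_mod_cast hNpos
  constructor
  · have h1 : ∀ n ∈ Icc 1 N, ‖((th (N - n) : ℝ) : ℂ)‖ ^ 2 ≤ Real.log N ^ 2 := by
      intro n _
      rw [Complex.norm_real, Real.norm_eq_abs, sq_abs]
      exact pow_le_pow_left₀ (th_nonneg _) (th_le_of_le (Nat.sub_le _ _)) 2
    refine (sum_le_sum h1).trans (le_of_eq ?_)
    rw [sum_const, Nat.card_Icc, nsmul_eq_mul, Nat.add_sub_cancel]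
  · have h1 : ∑ n ∈ Icc 1 N, ‖((mo 1 (Ql l) 0 (N - n) : ℝ) : ℂ)‖ ^ 2 =
        ∑ t ∈ range N, mo 1 (Ql l) 0 t ^ 2 := by
      rw [← sum_refl (fun t => mo 1 (Ql l) 0 t ^ 2) N]
      refine sum_congr rfl fun n _ => ?_
      rw [Complex.norm_real, Real.norm_eq_abs, sq_abs]
    have hQ1 : ((Ql l : ℕ) : ℝ) ≤ Real.exp (l / 2) := Nat.floor_le (Real.exp_pos _).le
    have hQn : 1 ≤ Ql l := Nat.floor_pos.2 (Real.one_le_exp (by linarith))
    have hQ0 : (0 : ℝ) < Ql l := by exact_mod_cast hQn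
    have h3 := hmo 1 (Ql l) 0 N hQn
    have h4 : Real.log (Ql l) ≤ l := by
      have := Real.log_le_log hQ0 hQ1
      rw [Real.log_exp] at this
      linarith
    have h5 : ((Ql l : ℕ) : ℝ) ^ 4 ≤ N := by
      calc ((Ql l : ℕ) : ℝ) ^ 4 ≤ Real.exp (l / 2) ^ 4 := pow_le_pow_left₀ hQ0.le hQ1 4
        _ = Real.exp (2 * l) := by rw [← Real.exp_nat_mul]; congr 1; push_cast; ring
        _ ≤ Real.exp (Real.log N) := Real.exp_le_exp.2 (by linarith)
        _ = N := Real.exp_log hN0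
    rw [h1]
    refine h3.trans ?_
    have h6 : (800 * l) ^ 2 ≤ Real.log N ^ 2 := pow_le_pow_left₀ (by linarith) hlN 2
    have h7 : C * (1 + Real.log (Ql l)) ≤ l * (1 + l) := by
      refine (mul_le_mul_of_nonneg_left (by linarith : 1 + Real.log (Ql l) ≤ 1 + l) hC.le).trans ?_
      exact mul_le_mul_of_nonneg_right hlC (by linarith)
    have h8 : l * (1 + l) + 2 ≤ Real.log N ^ 2 := by
      refine le_trans ?_ h6
      nlinarith
    calc (N : ℝ) * (C * (1 + Real.log (Ql l))) + 2 * ((Ql l : ℕ) : ℝ) ^ 4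
        ≤ N * (l * (1 + l)) + 2 * N := by
          have := mul_le_mul_of_nonneg_left h7 hN0.le
          linarith
      _ = N * (l * (1 + l) + 2) := by ring
      _ ≤ N * Real.log N ^ 2 := mul_le_mul_of_nonneg_left h8 hN0.le

end Pool.Agent.P8H4.GQ
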